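import Mathlib

/-!
The generalized Petersen graphs.
-/

namespace Pool.Agent.H13.GP

/-- The generalized Petersen graph `P(n,k)`: the vertex `inl i` is the outer vertex `u_i`, the
vertex `inr i` is the inner vertex `v_i` (`i` modulo `n`), and the edges are `u_i u_{i+1}`,
`u_i v_i` and `v_i v_{i+k}`. -/
def genPetersen (n k : ℕ) : SimpleGraph (ZMod n ⊕ ZMod n) :=
  SimpleGraph.fromRel fun x y => ∃ i : ZMod n,
    (x = Sum.inl i ∧ y = Sum.inl (i + 1)) ∨ (x = Sum.inl i ∧ y = Sum.inr i) ∨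
      (x = Sum.inr i ∧ y = Sum.inr (i + (k : ZMod n)))

end Pool.Agent.H13.GP
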