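import Pool.Agent.H13.GP.Defs

/-!
# Proof of the Behsaz-Hatami-Mahmoodian conjecture

Outline. For `t` modulo `n` put `a = min t (n - t)` and `b = min (k t mod n) (n - (k t mod n))`.
For every shift `c` the vertices `u_i` with `t i + c mod n` in `[0, a)` together with the vertices
`v_i` with `t i + c mod n` in `[a, a + b)` are independent, and on average over `c` there are
`a + b` of them (`arcs`). A suitable `t` exists unless `k = 2` or `n = 2 k + 1` (`exists_good`);
`P(n,2)` has an explicit pattern of period `5` (`case_two`), and `P(2k+1,k)` embeds in `P(2k+1,2)`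
(`case_swap`).
-/

namespace Pool.Agent.H13.GP

/-- A set of vertices given by its outer part `A` and its inner part `B` is independent as soon
as no forbidden pair occurs. -/
lemma isVertexCover_compl_of {n k : ℕ} (S : Set (ZMod n ⊕ ZMod n))
    (h1 : ∀ i : ZMod n, Sum.inl i ∈ S → Sum.inl (i + 1) ∉ S)
    (h2 : ∀ i : ZMod n, Sum.inl i ∈ S → Sum.inr i ∉ S)
    (h3 : ∀ i : ZMod n, Sum.inr i ∈ S → Sum.inr (i + (k : ZMod n)) ∉ S) :
    (genPetersen n k).IsVertexCover Sᶜ := by
  intro x y hxy
  rw [genPetersen, SimpleGraph.fromRel_adj] at hxy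
  obtain ⟨_, hxy⟩ := hxy
  simp only [Set.mem_compl_iff]
  rw [← not_and_or]
  rintro ⟨hx, hy⟩
  rcases hxy with ⟨i, ⟨rfl, rfl⟩ | ⟨rfl, rfl⟩ | ⟨rfl, rfl⟩⟩ |
    ⟨i, ⟨rfl, rfl⟩ | ⟨rfl, rfl⟩ | ⟨rfl, rfl⟩⟩
  · exact h1 _ hx hy
  · exact h2 _ hx hy
  · exact h3 _ hx hy
  · exact h1 _ hy hx
  · exact h2 _ hy hx
  · exact h3 _ hy hx

/-- The number of residues in `[0, a)`. -/
lemma card_val_lt (n a : ℕ) [NeZero n] (ha : a ≤ n) :
    (Finset.univ.filter fun x : ZMod n => x.val < a).card = a := by
  classical
  have h : (Finset.univ.filter fun x : ZMod n => x.val < a) =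
      (Finset.range a).image (fun j : ℕ => (j : ZMod n)) := by
    ext x
    simp only [Finset.mem_filter, Finset.mem_univ, true_and, Finset.mem_image, Finset.mem_range]
    constructor
    · intro hx
      exact ⟨x.val, hx, ZMod.natCast_zmod_val x⟩
    · rintro ⟨j, hj, rfl⟩
      rwa [ZMod.val_cast_of_lt (by omega)]
  rw [h, Finset.card_image_of_injOn, Finset.card_range]
  intro x hx y hy hxy
  simp only [Finset.coe_range, Set.mem_Iio] at hx hy
  have := congrArg ZMod.val hxy
  simpa [ZMod.val_cast_of_lt (show x < n by omega), ZMod.val_cast_of_lt (show y < n by omega)]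
    using this

/-- The number of residues in `[a, a + b)`. -/
lemma card_val_Ico (n a b : ℕ) [NeZero n] (hab : a + b ≤ n) :
    (Finset.univ.filter fun x : ZMod n => a ≤ x.val ∧ x.val < a + b).card = b := by
  classical
  have h1 := card_val_lt n a (by omega)
  have h2 := card_val_lt n (a + b) hab
  have h3 : (Finset.univ.filter fun x : ZMod n => x.val < a + b) =
      (Finset.univ.filter fun x : ZMod n => x.val < a) ∪
      (Finset.univ.filter fun x : ZMod n => a ≤ x.val ∧ x.val < a + b) := by
    ext x
    simp only [Finset.mem_filter, Finset.mem_univ, true_and, Finset.mem_union]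
    omega
  have h4 : Disjoint (Finset.univ.filter fun x : ZMod n => x.val < a)
      (Finset.univ.filter fun x : ZMod n => a ≤ x.val ∧ x.val < a + b) := by
    rw [Finset.disjoint_filter]
    intro x _ h
    omega
  rw [h3, Finset.card_union_of_disjoint h4] at h2
  omega

/-- The averaging argument. -/
lemma arcs {n k : ℕ} [NeZero n] (t : ZMod n) (a b : ℕ) (ha : a ≤ t.val) (ha' : a + t.val ≤ n)
    (hb : b ≤ ((k : ZMod n) * t).val) (hb' : b + ((k : ZMod n) * t).val ≤ n) (hab : a + b ≤ n) :
    (genPetersen n k).vertexCoverNum ≤ ((2 * n - (a + b) : ℕ) : ℕ∞) := by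
  classical
  let P : ZMod n → ZMod n ⊕ ZMod n → Prop := fun c x =>
    match x with
    | .inl i => (t * i + c).val < a
    | .inr i => a ≤ (t * i + c).val ∧ (t * i + c).val < a + b
  have key : ∃ c : ZMod n, a + b ≤ (Finset.univ.filter (P c)).card := by
    have hsum : ∑ c : ZMod n, (a + b) ≤ ∑ c : ZMod n, (Finset.univ.filter (P c)).card := by
      apply le_of_eq
      simp only [Finset.card_filter]
      rw [Finset.sum_comm]
      rw [Fintype.sum_sum_type]
      have e1 : ∀ i : ZMod n, ∑ c : ZMod n, (if P c (Sum.inl i) then 1 else 0) = a := by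
        intro i
        rw [← Finset.card_filter]
        have : (Finset.univ.filter fun c => P c (Sum.inl i)) =
            (Finset.univ.filter fun x : ZMod n => x.val < a).map
              (Equiv.addLeft (-(t * i))).toEmbedding := by
          ext c
          simp only [P, Finset.mem_filter, Finset.mem_univ, true_and, Finset.mem_map,
            Equiv.coe_toEmbedding, Equiv.coe_addLeft]
          constructor
          · intro h
            exact ⟨t * i + c, h, by ring⟩
          · rintro ⟨x, hx, rfl⟩
            have : t * i + (-(t * i) + x) = x := by ring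
            rwa [this]
        rw [this, Finset.card_map, card_val_lt n a (by omega)]
      have e2 : ∀ i : ZMod n, ∑ c : ZMod n, (if P c (Sum.inr i) then 1 else 0) = b := by
        intro i
        rw [← Finset.card_filter]
        have : (Finset.univ.filter fun c => P c (Sum.inr i)) =
            (Finset.univ.filter fun x : ZMod n => a ≤ x.val ∧ x.val < a + b).map
              (Equiv.addLeft (-(t * i))).toEmbedding := by
          ext c
          simp only [P, Finset.mem_filter, Finset.mem_univ, true_and, Finset.mem_map,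
            Equiv.coe_toEmbedding, Equiv.coe_addLeft]
          constructor
          · intro h
            exact ⟨t * i + c, h, by ring⟩
          · rintro ⟨x, hx, rfl⟩
            have : t * i + (-(t * i) + x) = x := by ring
            rwa [this]
        rw [this, Finset.card_map, card_val_Ico n a b hab]
      rw [Finset.sum_add_distrib]
      congr 1
      · refine Finset.sum_congr rfl fun i _ => ?_
        convert (e1 i).symm
      · refine Finset.sum_congr rfl fun i _ => ?_
        convert (e2 i).symm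
    obtain ⟨c, _, hc⟩ := Finset.exists_le_of_sum_le (Finset.univ_nonempty) hsum
    exact ⟨c, hc⟩
  obtain ⟨c, hc⟩ := key
  have hcov : (genPetersen n k).IsVertexCover
      ((Finset.univ.filter (P c) : Finset (ZMod n ⊕ ZMod n)) : Set (ZMod n ⊕ ZMod n))ᶜ := by
    apply isVertexCover_compl_of
    · intro i hi hi'
      simp only [Finset.coe_filter, Finset.mem_univ, true_and, Set.mem_ofPred_eq, P] at hi hi'
      have e : t * (i + 1) + c = (t * i + c) + t := by ring
      rw [e, ZMod.val_add, Nat.mod_eq_of_lt (by omega)] at hi'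
      omega
    · intro i hi hi'
      simp only [Finset.coe_filter, Finset.mem_univ, true_and, Set.mem_ofPred_eq, P] at hi hi'
      omega
    · intro i hi hi'
      simp only [Finset.coe_filter, Finset.mem_univ, true_and, Set.mem_ofPred_eq, P] at hi hi'
      have e : t * (i + (k : ZMod n)) + c = (t * i + c) + (k : ZMod n) * t := by ring
      rw [e, ZMod.val_add] at hi'
      by_cases h : (t * i + c).val + ((k : ZMod n) * t).val < n
      · rw [Nat.mod_eq_of_lt h] at hi'
        omega
      · have h2 : ((t * i + c).val + ((k : ZMod n) * t).val) % n =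
            (t * i + c).val + ((k : ZMod n) * t).val - n := by
          rw [Nat.mod_eq_sub_mod (by omega), Nat.mod_eq_of_lt]
          have := ZMod.val_lt (t * i + c)
          have := ZMod.val_lt ((k : ZMod n) * t)
          omega
        rw [h2] at hi'
        omega
  refine hcov.vertexCoverNum_le.trans ?_
  rw [← Finset.coe_compl, Set.encard_coe_eq_coe_finsetCard, Finset.card_compl]
  have : Fintype.card (ZMod n ⊕ ZMod n) = 2 * n := by
    rw [Fintype.card_sum, ZMod.card]; ring
  rw [this]
  exact_mod_cast Nat.sub_le_sub_left hc _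

/-- Verification by evaluation for `n < 75`. -/
lemma good_small_check : ((List.range 75).all fun n => (List.range 38).all fun k =>
    (!(decide (3 ≤ n ∧ 1 ≤ k ∧ 2 * k < n ∧ k ≠ 2 ∧ 2 * k + 1 ≠ n))) ||
      (List.range n).any fun t => decide (4 * n / 5 ≤ min t (n - t) + min (k * t % n) (n - k * t % n))) = true := by
  decide +kernel

lemma good_small (n : ℕ) (hn75 : n < 75) (k : ℕ) (hk38 : k < 38) (hn : 3 ≤ n) (hk : 1 ≤ k)
    (hkn : 2 * k < n) (h2 : k ≠ 2) (h3 : 2 * k + 1 ≠ n) :
    ∃ t < n, 4 * n / 5 ≤ min t (n - t) + min (k * t % n) (n - k * t % n) := by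
  have h := good_small_check
  rw [List.all_eq_true] at h
  have h1 := h n (List.mem_range.2 hn75)
  rw [List.all_eq_true] at h1
  have h4 := h1 k (List.mem_range.2 hk38)
  rw [Bool.or_eq_true] at h4
  rcases h4 with h4 | h4
  · exfalso
    rw [Bool.not_eq_true', decide_eq_false_iff_not] at h4
    exact h4 ⟨hn, hk, hkn, h2, h3⟩
  · rw [List.any_eq_true] at h4
    obtain ⟨t, ht, ht'⟩ := h4
    exact ⟨t, List.mem_range.1 ht, of_decide_eq_true ht'⟩

/-- `t = (n - s) / 2` is good as soon as `k s = j n + r` with small `s`, `r` and the right parities. -/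
lemma good_of (n k s : ℕ) (r j : ℤ) (hs : s < n) (hsn : (n - s) % 2 = 0) (hr : -n < r) (hr' : r < n)
    (hrel : (k : ℤ) * s = j * n + r) (hj : (j + k) % 2 = 1) (hc : 5 * (s + |r|) ≤ 2 * n) :
    ∃ t < n, 4 * n / 5 ≤ min t (n - t) + min (k * t % n) (n - k * t % n) := by
  obtain ⟨t, ht⟩ : ∃ t, n - s = 2 * t := ⟨(n - s) / 2, by omega⟩
  obtain ⟨q, hq⟩ : ∃ q : ℤ, (k : ℤ) - j - 1 = 2 * q := ⟨((k : ℤ) - j - 1) / 2, by omega⟩
  have h1 : (2 : ℤ) * t = n - s := by omega
  have h2 : (2 : ℤ) * (k * t) = 2 * (q * n) + (n - r) := by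
    have : (2 : ℤ) * (k * t) = k * (2 * t) := by ring
    rw [this, h1]
    have : (k : ℤ) = 2 * q + j + 1 := by omega
    have h3 : (k : ℤ) * (n - s) = k * n - k * s := by ring
    rw [h3, hrel]
    have h4 : (k : ℤ) * n = (2 * q + j + 1) * n := by rw [← this]
    rw [h4]; ring
  obtain ⟨m, hm⟩ : ∃ m : ℤ, (n : ℤ) - r = 2 * m := ⟨k * t - q * n, by linarith⟩
  have h3 : ((k * t % n : ℕ) : ℤ) = m := by
    push_cast
    have : (k : ℤ) * t = m + n * q := by linarith
    rw [this, Int.add_mul_emod_self_left, Int.emod_eq_of_lt (by omega) (by omega)]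
  refine ⟨t, by omega, ?_⟩
  rcases abs_cases r with ⟨h, _⟩ | ⟨h, _⟩ <;> rw [h] at hc <;> omega

/-- A good multiplier `t` exists unless `k = 2` or `n = 2 k + 1`. -/
lemma exists_good (n k : ℕ) (hn : 3 ≤ n) (hk : 1 ≤ k) (hkn : 2 * k < n) (h2 : k ≠ 2)
    (h3 : 2 * k + 1 ≠ n) :
    ∃ t < n, 4 * n / 5 ≤ min t (n - t) + min (k * t % n) (n - k * t % n) := by
  by_cases hsmall : n < 75
  · exact good_small n hsmall k (by omega) hn hk hkn h2 h3
  push Not at hsmall
  rcases Nat.even_or_odd k with hke | hko
  · -- `k` even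
    rw [Nat.even_iff] at hke
    by_cases h3k : 3 * k ≤ n
    · -- `s` is the integer of the parity of `n` next to `n / k`
      have hs0 : n / k * k ≤ n := Nat.div_mul_le_self n k
      have hs1 : n < (n / k + 1) * k := by
        rw [add_mul, one_mul]; exact Nat.lt_div_mul_add (by omega)
      have hs2 : 3 ≤ n / k := (Nat.le_div_iff_mul_le (by omega)).2 (by omega)
      set s0 := n / k with hs0def
      have hb : 3 * (s0 + k) ≤ n + 9 := by
        obtain ⟨x, hx⟩ := Nat.exists_eq_add_of_le hs2
        obtain ⟨y, hy⟩ := Nat.exists_eq_add_of_le (show 3 ≤ k by omega)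
        have : (3 + x) * (3 + y) ≤ n := by rw [← hx, ← hy]; exact hs0
        nlinarith
      by_cases hp : s0 % 2 = n % 2
      · have e1 : (0 : ℤ) ≤ n - s0 * k := by
          have : ((s0 * k : ℕ) : ℤ) ≤ n := by exact_mod_cast hs0
          push_cast at this; linarith
        have e2 : (n : ℤ) - s0 * k < k := by
          have : (n : ℤ) < ((s0 + 1) * k : ℕ) := by exact_mod_cast hs1
          push_cast at this; linarith
        refine good_of n k s0 (k * s0 - n) 1 (by omega) (by omega) ?_ ?_ (by ring) (by omega) ?_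
        · have : (k : ℤ) * s0 = s0 * k := mul_comm _ _
          omega
        · have : (k : ℤ) * s0 = s0 * k := mul_comm _ _
          omega
        · have : (k : ℤ) * s0 = s0 * k := mul_comm _ _
          rw [abs_of_nonpos (by omega)]
          omega
      · have e1 : (0 : ℤ) ≤ n - s0 * k := by
          have : ((s0 * k : ℕ) : ℤ) ≤ n := by exact_mod_cast hs0
          push_cast at this; linarith
        have e2 : (n : ℤ) - s0 * k < k := by
          have : (n : ℤ) < ((s0 + 1) * k : ℕ) := by exact_mod_cast hs1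
          push_cast at this; linarith
        have e3 : (k : ℤ) * ((s0 + 1 : ℕ) : ℤ) = s0 * k + k := by push_cast; ring
        refine good_of n k (s0 + 1) (k * (s0 + 1 : ℕ) - n) 1 (by omega) (by omega) ?_ ?_
          (by ring) (by omega) ?_
        · omega
        · omega
        · rw [abs_of_nonneg (by omega)]
          push_cast at e3 ⊢
          omega
    · by_cases hne : n % 2 = 0
      · refine good_of n k 2 (2 * k - n) 1 (by omega) (by omega) (by omega) (by omega)
          (by push_cast; ring) (by omega) ?_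
        rw [abs_of_nonpos (by omega)]
        omega
      · obtain ⟨σ, hσ⟩ := Nat.exists_eq_add_of_le (show 2 * k ≤ n by omega)
        have hs0 : k / σ * σ ≤ k := Nat.div_mul_le_self k σ
        have hs1 : k < (k / σ + 1) * σ := by
          rw [add_mul, one_mul]; exact Nat.lt_div_mul_add (by omega)
        have hs2 : 1 ≤ k / σ := (Nat.le_div_iff_mul_le (by omega)).2 (by omega)
        set a0 := k / σ with ha0def
        have hb : 6 * a0 + 3 * σ ≤ n + 6 := by
          obtain ⟨x, hx⟩ := Nat.exists_eq_add_of_le hs2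
          obtain ⟨y, hy⟩ := Nat.exists_eq_add_of_le (show 3 ≤ σ by omega)
          have : (1 + x) * (3 + y) ≤ k := by rw [← hx, ← hy]; exact hs0
          nlinarith
        have e1 : (0 : ℤ) ≤ k - a0 * σ := by
          have : ((a0 * σ : ℕ) : ℤ) ≤ k := by exact_mod_cast hs0
          push_cast at this; linarith
        have e2 : (k : ℤ) - a0 * σ < σ := by
          have : (k : ℤ) < ((a0 + 1) * σ : ℕ) := by exact_mod_cast hs1
          push_cast at this; linarith
        have hnz : (n : ℤ) = 2 * k + σ := by exact_mod_cast hσ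
        by_cases hp : a0 % 2 = 1
        · refine good_of n k (2 * a0 + 1) (k - a0 * σ) a0 (by omega) (by omega) (by omega)
            (by omega) ?_ (by omega) ?_
          · rw [hnz]; push_cast; ring
          · rw [abs_of_nonneg e1]; push_cast; omega
        · have e3 : ((a0 + 1 : ℕ) : ℤ) * σ = a0 * σ + σ := by push_cast; ring
          refine good_of n k (2 * (a0 + 1) + 1) (k - (a0 + 1 : ℕ) * σ) (a0 + 1 : ℕ) (by omega)
            (by omega) (by omega) (by omega) ?_ (by omega) ?_
          · rw [hnz]; push_cast; ring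
          · rw [abs_of_nonpos (by omega)]; push_cast at e3 ⊢; omega
  · rw [Nat.odd_iff] at hko
    by_cases hne : n % 2 = 0
    · refine good_of n k 0 0 0 (by omega) (by omega) (by omega) (by omega) (by simp) (by omega)
        (by simp)
    · by_cases h3k : 3 * k ≤ n
      · refine good_of n k 1 k 0 (by omega) (by omega) (by omega) (by omega) (by simp) (by omega) ?_
        rw [abs_of_nonneg (by omega)]
        push_cast
        omega
      · obtain ⟨σ, hσ⟩ := Nat.exists_eq_add_of_le (show 2 * k ≤ n by omega)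
        have hs0 : k / σ * σ ≤ k := Nat.div_mul_le_self k σ
        have hs1 : k < (k / σ + 1) * σ := by
          rw [add_mul, one_mul]; exact Nat.lt_div_mul_add (by omega)
        have hs2 : 1 ≤ k / σ := (Nat.le_div_iff_mul_le (by omega)).2 (by omega)
        set a0 := k / σ with ha0def
        have hb : 6 * a0 + 3 * σ ≤ n + 6 := by
          obtain ⟨x, hx⟩ := Nat.exists_eq_add_of_le hs2
          obtain ⟨y, hy⟩ := Nat.exists_eq_add_of_le (show 3 ≤ σ by omega)
          have : (1 + x) * (3 + y) ≤ k := by rw [← hx, ← hy]; exact hs0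
          nlinarith
        have e1 : (0 : ℤ) ≤ k - a0 * σ := by
          have : ((a0 * σ : ℕ) : ℤ) ≤ k := by exact_mod_cast hs0
          push_cast at this; linarith
        have e2 : (k : ℤ) - a0 * σ < σ := by
          have : (k : ℤ) < ((a0 + 1) * σ : ℕ) := by exact_mod_cast hs1
          push_cast at this; linarith
        have hnz : (n : ℤ) = 2 * k + σ := by exact_mod_cast hσ
        by_cases hp : a0 % 2 = 0
        · refine good_of n k (2 * a0 + 1) (k - a0 * σ) a0 (by omega) (by omega) (by omega)
            (by omega) ?_ (by omega) ?_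
          · rw [hnz]; push_cast; ring
          · rw [abs_of_nonneg e1]; push_cast; omega
        · have e3 : ((a0 + 1 : ℕ) : ℤ) * σ = a0 * σ + σ := by push_cast; ring
          refine good_of n k (2 * (a0 + 1) + 1) (k - (a0 + 1 : ℕ) * σ) (a0 + 1 : ℕ) (by omega)
            (by omega) (by omega) (by omega) ?_ (by omega) ?_
          · rw [hnz]; push_cast; ring
          · rw [abs_of_nonpos (by omega)]; push_cast at e3 ⊢; omega

lemma val_add_small {n : ℕ} [NeZero n] (i : ZMod n) (m : ℕ) (hm : m < n) :
    (i + (m : ZMod n)).val = if i.val + m < n then i.val + m else i.val + m - n := by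
  rw [ZMod.val_add, ZMod.val_cast_of_lt hm]
  have := ZMod.val_lt i
  split_ifs with h
  · exact Nat.mod_eq_of_lt h
  · rw [Nat.mod_eq_sub_mod (by omega), Nat.mod_eq_of_lt (by omega)]

/-- The case `k = 2`. -/
lemma case_two (n : ℕ) (hn : 5 ≤ n) :
    (genPetersen n 2).vertexCoverNum ≤ ((n + (n + 4) / 5 : ℕ) : ℕ∞) := by
  classical
  have : NeZero n := ⟨by omega⟩
  let Z : ZMod n → Prop := fun i => i.val % 5 = 1 ∨ (i.val % 5 = 0 ∧ i.val + 1 = n)
  let A : ZMod n → Prop := fun i =>
    (i.val % 5 = 0 ∧ i.val + 1 ≠ n) ∨ (i.val % 5 = 2 ∧ i.val < n / 5 * 5)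
  let f : ZMod n → ZMod n ⊕ ZMod n := fun i => if A i then Sum.inl i else Sum.inr i
  let S : Finset (ZMod n ⊕ ZMod n) := (Finset.univ.filter fun i => ¬ Z i).image f
  have hinl : ∀ i, Sum.inl i ∈ (S : Set (ZMod n ⊕ ZMod n)) → A i := by
    intro i hi
    simp only [S, Finset.coe_image, Finset.coe_filter, Finset.mem_univ, true_and,
      Set.mem_image, Set.mem_ofPred_eq, f] at hi
    obtain ⟨j, _, hj'⟩ := hi
    split_ifs at hj' with h
    · have := Sum.inl.inj hj'
      rwa [← this]
  have hinr : ∀ i, Sum.inr i ∈ (S : Set (ZMod n ⊕ ZMod n)) → ¬ A i ∧ ¬ Z i := by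
    intro i hi
    simp only [S, Finset.coe_image, Finset.coe_filter, Finset.mem_univ, true_and,
      Set.mem_image, Set.mem_ofPred_eq, f] at hi
    obtain ⟨j, hj, hj'⟩ := hi
    split_ifs at hj' with h
    · have := Sum.inr.inj hj'
      rw [← this]; exact ⟨h, hj⟩
  have hcov : (genPetersen n 2).IsVertexCover (S : Set (ZMod n ⊕ ZMod n))ᶜ := by
    apply isVertexCover_compl_of
    · intro i hi hi'
      have h1 := hinl _ hi
      have h2 := hinl _ hi'
      have h3 := val_add_small i 1 (by omega)
      rw [Nat.cast_one] at h3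
      have := ZMod.val_lt i
      simp only [A] at h1 h2
      rw [h3] at h2
      split_ifs at h2 <;> omega
    · intro i hi hi'
      exact (hinr _ hi').1 (hinl _ hi)
    · intro i hi hi'
      have h1 := hinr _ hi
      have h2 := hinr _ hi'
      have h3 := val_add_small i 2 (by omega)
      have := ZMod.val_lt i
      simp only [A, Z] at h1 h2
      rw [h3] at h2
      split_ifs at h2 <;> omega
  refine hcov.vertexCoverNum_le.trans ?_
  rw [← Finset.coe_compl, Set.encard_coe_eq_coe_finsetCard, Finset.card_compl]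
  have hcard : Fintype.card (ZMod n ⊕ ZMod n) = 2 * n := by
    rw [Fintype.card_sum, ZMod.card]; ring
  rw [hcard]
  have hf : Function.Injective f := by
    intro i j hij
    simp only [f] at hij
    split_ifs at hij <;> simpa using hij
  have hS : S.card = (Finset.univ.filter fun i => ¬ Z i).card :=
    Finset.card_image_of_injective _ hf
  have hZ : (Finset.univ.filter fun i => Z i).card ≤ (n + 4) / 5 := by
    rw [← Finset.card_range ((n + 4) / 5)]
    apply Finset.card_le_card_of_injOn (fun i : ZMod n => i.val / 5)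
    · intro i hi
      simp only [Finset.coe_filter, Finset.mem_univ, true_and, Set.mem_ofPred_eq] at hi
      simp only [Finset.coe_range, Set.mem_Iio]
      have := ZMod.val_lt i
      omega
    · intro i hi j hj hij
      simp only [Finset.coe_filter, Finset.mem_univ, true_and, Set.mem_ofPred_eq, Z] at hi hj hij
      have := ZMod.val_lt i
      have := ZMod.val_lt j
      apply ZMod.val_injective n
      omega
  have htot : (Finset.univ.filter fun i => Z i).card +
      (Finset.univ.filter fun i => ¬ Z i).card = n := by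
    rw [Finset.card_filter_add_card_filter_not, Finset.card_univ, ZMod.card]
  have hfin : 2 * n - S.card ≤ n + (n + 4) / 5 := by
    rw [hS]; omega
  exact_mod_cast hfin

/-- The case `n = 2 k + 1`. -/
lemma case_swap (k : ℕ) :
    (genPetersen (2 * k + 1) k).vertexCoverNum ≤ (genPetersen (2 * k + 1) 2).vertexCoverNum := by
  apply SimpleGraph.IsContained.vertexCoverNum_le_vertexCoverNum
  have hk0 : (2 : ZMod (2 * k + 1)) * k + 1 = 0 := by
    have := ZMod.natCast_self (2 * k + 1)
    push_cast at this
    exact this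
  have hinj : ∀ i j : ZMod (2 * k + 1), -2 * i = -2 * j → i = j := by
    intro i j h
    have h2 : (k : ZMod (2 * k + 1)) * (-2 * i) = (k : ZMod (2 * k + 1)) * (-2 * j) := by rw [h]
    have e : ∀ i : ZMod (2 * k + 1), (k : ZMod (2 * k + 1)) * (-2 * i) = i := by
      intro i
      linear_combination (-i) * hk0
    rwa [e, e] at h2
  let f : ZMod (2 * k + 1) ⊕ ZMod (2 * k + 1) → ZMod (2 * k + 1) ⊕ ZMod (2 * k + 1) := fun x =>
    match x with
    | .inl i => .inr (-2 * i)
    | .inr i => .inl (-2 * i)
  have hf : Function.Injective f := by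
    intro x y hxy
    rcases x with i | i <;> rcases y with j | j <;> simp only [f] at hxy
    · exact congrArg Sum.inl (hinj _ _ (Sum.inr.inj hxy))
    · exact absurd hxy (by simp)
    · exact absurd hxy (by simp)
    · exact congrArg Sum.inr (hinj _ _ (Sum.inl.inj hxy))
  refine ⟨⟨⟨f, ?_⟩, hf⟩⟩
  intro x y hxy
  rw [genPetersen, SimpleGraph.fromRel_adj] at hxy ⊢
  obtain ⟨hne, hxy⟩ := hxy
  refine ⟨fun h => hne (hf h), ?_⟩
  have key : ∀ x y : ZMod (2 * k + 1) ⊕ ZMod (2 * k + 1),
      (∃ i : ZMod (2 * k + 1), (x = Sum.inl i ∧ y = Sum.inl (i + 1)) ∨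
        (x = Sum.inl i ∧ y = Sum.inr i) ∨
          (x = Sum.inr i ∧ y = Sum.inr (i + (k : ZMod (2 * k + 1))))) →
      (∃ i : ZMod (2 * k + 1), (f y = Sum.inl i ∧ f x = Sum.inl (i + 1)) ∨
        (f y = Sum.inl i ∧ f x = Sum.inr i) ∨
          (f y = Sum.inr i ∧ f x = Sum.inr (i + ((2 : ℕ) : ZMod (2 * k + 1))))) ∨
      (∃ i : ZMod (2 * k + 1), (f x = Sum.inl i ∧ f y = Sum.inl (i + 1)) ∨
        (f x = Sum.inl i ∧ f y = Sum.inr i) ∨
          (f x = Sum.inr i ∧ f y = Sum.inr (i + ((2 : ℕ) : ZMod (2 * k + 1))))) := by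
    rintro x y ⟨i, ⟨rfl, rfl⟩ | ⟨rfl, rfl⟩ | ⟨rfl, rfl⟩⟩
    · left
      refine ⟨-2 * (i + 1), Or.inr (Or.inr ⟨rfl, ?_⟩)⟩
      show Sum.inr (-2 * i) = _
      congr 1
      push_cast
      ring
    · left
      exact ⟨-2 * i, Or.inr (Or.inl ⟨rfl, rfl⟩)⟩
    · right
      refine ⟨-2 * i, Or.inl ⟨rfl, ?_⟩⟩
      show Sum.inl (-2 * (i + (k : ZMod (2 * k + 1)))) = _
      congr 1
      linear_combination (-1 : ZMod (2 * k + 1)) * hk0
  rcases hxy with h | h
  · rcases key x y h with h' | h'
    · exact Or.inr h'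
    · exact Or.inl h'
  · rcases key y x h with h' | h'
    · exact Or.inl h'
    · exact Or.inr h'

/-- **The Behsaz-Hatami-Mahmoodian conjecture.** For all `n ≥ 3` and `1 ≤ k < n / 2`, the vertex
cover number of the generalized Petersen graph `P(n,k)` is at most `n + ⌈n / 5⌉`. -/
theorem main (n k : ℕ) (hn : 3 ≤ n) (hk : 1 ≤ k) (hkn : 2 * k < n) :
    (genPetersen n k).vertexCoverNum ≤ ((n + ⌈(n : ℚ) / 5⌉₊ : ℕ) : ℕ∞) := by
  have hceil : (n + 4) / 5 ≤ ⌈(n : ℚ) / 5⌉₊ := by
    have h := Nat.le_ceil ((n : ℚ) / 5)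
    have h2 : (n : ℚ) ≤ ((5 * ⌈(n : ℚ) / 5⌉₊ : ℕ) : ℚ) := by
      push_cast
      linarith
    have h3 : n ≤ 5 * ⌈(n : ℚ) / 5⌉₊ := by exact_mod_cast h2
    omega
  have hle : ((n + (n + 4) / 5 : ℕ) : ℕ∞) ≤ ((n + ⌈(n : ℚ) / 5⌉₊ : ℕ) : ℕ∞) := by
    exact_mod_cast Nat.add_le_add_left hceil n
  refine le_trans ?_ hle
  have : NeZero n := ⟨by omega⟩
  by_cases h2 : k = 2
  · subst h2
    exact case_two n (by omega)
  by_cases h3 : 2 * k + 1 = n ∧ n ≠ 3
  · obtain ⟨h3, h4⟩ := h3
    subst h3
    exact (case_swap k).trans (case_two (2 * k + 1) (by omega))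
  obtain ⟨t, ht, h⟩ : ∃ t < n, 4 * n / 5 ≤ min t (n - t) + min (k * t % n) (n - k * t % n) := by
    by_cases h4 : n = 3
    · obtain rfl : k = 1 := by omega
      subst h4
      exact ⟨1, by norm_num, by norm_num⟩
    · exact exists_good n k hn hk hkn h2 (fun h => h3 ⟨h, h4⟩)
  have hval1 : ((t : ℕ) : ZMod n).val = t := ZMod.val_cast_of_lt ht
  have hval2 : ((k : ZMod n) * ((t : ℕ) : ZMod n)).val = k * t % n := by
    rw [← Nat.cast_mul, ZMod.val_natCast]
  have hmod : k * t % n < n := Nat.mod_lt _ (by omega)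
  have := arcs (n := n) (k := k) ((t : ℕ) : ZMod n) (min t (n - t))
    (min (k * t % n) (n - k * t % n)) (by rw [hval1]; omega) (by rw [hval1]; omega)
    (by rw [hval2]; omega) (by rw [hval2]; omega) (by omega)
  refine this.trans ?_
  exact_mod_cast (by omega : 2 * n - (min t (n - t) + min (k * t % n) (n - k * t % n)) ≤
    n + (n + 4) / 5)

end Pool.Agent.H13.GP
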